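import Pool.Agent.H20.T4.Stm
import Pool.Agent.H9.TC.Cut

/-!
Project TM4 (MP_b6022c_nt), row CUT: the digits above `3ν + C'` do not change under shifts.
-/

namespace Pool.Agent.H26.T4

open Finset Pool.Agent.H9.TC Pool.Agent.H20.T4

/-- growth of the quartic polynomial -/
theorem cut_grow4 (c : ℕ) (d e f g' : ℤ) (hc : 1 ≤ c) (D : ℕ)
    (hD : |d| + |e| + |f| + |g'| ≤ D) (n : ℕ) (hn : 2 * D + 1 ≤ n) :
    0 ≤ qua c d e f g' n ∧ qua c d e f g' n ≤ qua c d e f g' ((n + 1 : ℕ) : ℤ) ∧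
      qua c d e f g' n ≤ (c + D) * (n : ℤ) ^ 4 := by
  unfold qua
  have hc' : (1 : ℤ) ≤ c := by exact_mod_cast hc
  have hn' : 2 * (D : ℤ) + 1 ≤ n := by exact_mod_cast hn
  have hD0 : (0 : ℤ) ≤ D := Nat.cast_nonneg _
  have hd := abs_le.1 (le_refl |d|)
  have he := abs_le.1 (le_refl |e|)
  have hf := abs_le.1 (le_refl |f|)
  have hg := abs_le.1 (le_refl |g'|)
  have hd0 := abs_nonneg d
  have he0 := abs_nonneg e
  have hf0 := abs_nonneg f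
  have hg0 := abs_nonneg g'
  push_cast
  generalize (n : ℤ) = x at hn' ⊢
  generalize (D : ℤ) = D at hn' hD hD0 ⊢
  generalize (c : ℤ) = c at hc' ⊢
  have hx1 : 1 ≤ x := by linarith
  have hx0 : 0 ≤ x := by linarith
  have hx2 : 1 ≤ x ^ 2 := one_le_pow₀ hx1
  have hx20 : 0 ≤ x ^ 2 := by linarith
  have hx3 : x ≤ x ^ 2 := by
    have := mul_le_mul_of_nonneg_left hx1 hx0
    linarith [(by ring : x * x = x ^ 2)]
  have hx4 : x ^ 2 ≤ x ^ 3 := by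
    have := mul_le_mul_of_nonneg_left hx1 hx20
    linarith [(by ring : x ^ 2 * x = x ^ 3)]
  have hx30 : 0 ≤ x ^ 3 := by linarith
  have hx5 : x ^ 3 ≤ x ^ 4 := by
    have := mul_le_mul_of_nonneg_left hx1 hx30
    linarith [(by ring : x ^ 3 * x = x ^ 4)]
  have hx40 : 0 ≤ x ^ 4 := by linarith
  have a1 : |d| * x ^ 3 + |e| * x ^ 2 + |f| * x + |g'| ≤ D * x ^ 3 := by
    have b1 : |e| * x ^ 2 ≤ |e| * x ^ 3 := mul_le_mul_of_nonneg_left hx4 he0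
    have b2 : |f| * x ≤ |f| * x ^ 3 := mul_le_mul_of_nonneg_left (hx3.trans hx4) hf0
    have b3 : |g'| * 1 ≤ |g'| * x ^ 3 := mul_le_mul_of_nonneg_left (hx2.trans hx4) hg0
    have b4 : (|d| + |e| + |f| + |g'|) * x ^ 3 ≤ D * x ^ 3 := mul_le_mul_of_nonneg_right hD hx30
    linarith
  have a2 : (-|d|) * x ^ 3 ≤ d * x ^ 3 := mul_le_mul_of_nonneg_right hd.1 hx30
  have a3 : (-|e|) * x ^ 2 ≤ e * x ^ 2 := mul_le_mul_of_nonneg_right he.1 hx20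
  have a4 : (-|f|) * x ≤ f * x := mul_le_mul_of_nonneg_right hf.1 hx0
  have a5 : d * x ^ 3 ≤ |d| * x ^ 3 := mul_le_mul_of_nonneg_right hd.2 hx30
  have a6 : e * x ^ 2 ≤ |e| * x ^ 2 := mul_le_mul_of_nonneg_right he.2 hx20
  have a7 : f * x ≤ |f| * x := mul_le_mul_of_nonneg_right hf.2 hx0
  have a8 : 1 * x ^ 4 ≤ c * x ^ 4 := mul_le_mul_of_nonneg_right hc' hx40
  have a9 : D * x ^ 3 ≤ x ^ 4 := by
    have : D * x ^ 3 ≤ x * x ^ 3 := mul_le_mul_of_nonneg_right (by linarith) hx30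
    linarith [(by ring : x * x ^ 3 = x ^ 4)]
  refine ⟨by linarith, ?_, ?_⟩
  · have p1 : 0 ≤ 3 * x ^ 2 + 3 * x + 1 := by linarith
    have p2 : 0 ≤ 2 * x + 1 := by linarith
    have h8 : 1 * (4 * x ^ 3 + 6 * x ^ 2 + 4 * x + 1) ≤ c * (4 * x ^ 3 + 6 * x ^ 2 + 4 * x + 1) :=
      mul_le_mul_of_nonneg_right hc' (by linarith)
    have h9 : -(D * (3 * x ^ 2 + 3 * x + 1)) ≤ d * (3 * x ^ 2 + 3 * x + 1) + e * (2 * x + 1) + f := by
      have b1 : (-|d|) * (3 * x ^ 2 + 3 * x + 1) ≤ d * (3 * x ^ 2 + 3 * x + 1) :=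
        mul_le_mul_of_nonneg_right hd.1 p1
      have b2 : (-|e|) * (2 * x + 1) ≤ e * (2 * x + 1) := mul_le_mul_of_nonneg_right he.1 p2
      have b3 : |e| * (2 * x + 1) ≤ |e| * (3 * x ^ 2 + 3 * x + 1) :=
        mul_le_mul_of_nonneg_left (by linarith) he0
      have b4 : |f| * 1 ≤ |f| * (3 * x ^ 2 + 3 * x + 1) :=
        mul_le_mul_of_nonneg_left (by linarith) hf0
      have b5 : (|d| + |e| + |f|) * (3 * x ^ 2 + 3 * x + 1) ≤ D * (3 * x ^ 2 + 3 * x + 1) :=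
        mul_le_mul_of_nonneg_right (by linarith) p1
      linarith
    have h10 : D * (3 * x ^ 2 + 3 * x + 1) ≤ 4 * x ^ 3 + 6 * x ^ 2 + 4 * x + 1 := by
      have b1 : 2 * D * (3 * x ^ 2 + 3 * x + 1) ≤ (x - 1) * (3 * x ^ 2 + 3 * x + 1) :=
        mul_le_mul_of_nonneg_right (by linarith) p1
      have b2 : (x - 1) * (3 * x ^ 2 + 3 * x + 1) = 3 * x ^ 3 - 2 * x - 1 := by ring
      rw [b2] at b1
      linarith
    have e1 : c * (x + 1) ^ 4 + d * (x + 1) ^ 3 + e * (x + 1) ^ 2 + f * (x + 1) + g' =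
        c * x ^ 4 + d * x ^ 3 + e * x ^ 2 + f * x + g' +
          (c * (4 * x ^ 3 + 6 * x ^ 2 + 4 * x + 1) +
            (d * (3 * x ^ 2 + 3 * x + 1) + e * (2 * x + 1) + f)) := by ring
    rw [e1]
    linarith
  · have h8 : D * x ^ 3 ≤ D * x ^ 4 := mul_le_mul_of_nonneg_left hx5 hD0
    linarith

theorem cut_half4 (c : ℕ) (d e f g' : ℤ) (j t : ℕ) (ε : ℝ) (hc : 1 ≤ c) (hε : 0 < ε) :
    ∃ C0 : ℕ, ∀ C' ≥ C0, ∃ ν0 : ℕ,
    ∀ ν ≥ ν0, ∀ P : ℕ → Prop, (∀ n, P n → ¬ (0 ≤ qua c d e f g' ((n + j : ℕ) : ℤ) ∧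
      0 ≤ qua c d e f g' ((n + j + t : ℕ) : ℤ) ∧
      qua c d e f g' ((n + j : ℕ) : ℤ) / 2 ^ (3 * ν + C') =
        qua c d e f g' ((n + j + t : ℕ) : ℤ) / 2 ^ (3 * ν + C'))) →
      (cnt (2 ^ ν) P : ℝ) ≤ ε * 2 ^ ν := by
  obtain ⟨D, hD⟩ : ∃ D : ℕ, |d| + |e| + |f| + |g'| ≤ D :=
    ⟨(|d| + |e| + |f| + |g'|).toNat, Int.self_le_toNat _⟩
  set n0 : ℕ := 2 * D + 1 with hn0
  set A : ℝ := t * ((c + D) * (1 + j + t) ^ 4) with hA
  obtain ⟨C0, hC0⟩ := pow_unbounded_of_one_lt (2 * A / ε) (one_lt_two : (1 : ℝ) < 2)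
  refine ⟨C0, fun C' hC' => ?_⟩
  obtain ⟨ν0, hν0⟩ := pow_unbounded_of_one_lt (2 * n0 / ε + n0) (one_lt_two : (1 : ℝ) < 2)
  refine ⟨ν0, fun ν hν P hP => ?_⟩
  have hA0 : 0 ≤ A := by rw [hA]; positivity
  have h2ν : (2 : ℝ) ^ ν0 ≤ 2 ^ ν := pow_le_pow_right₀ one_le_two hν
  have h2C : (2 : ℝ) ^ C0 ≤ 2 ^ C' := pow_le_pow_right₀ one_le_two hC'
  have hq0 : 0 ≤ 2 * (n0 : ℝ) / ε := by positivity
  have hge : n0 ≤ 2 ^ ν := by
    have h : (n0 : ℝ) ≤ 2 ^ ν := by linarith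
    exact_mod_cast h
  obtain ⟨K, hK⟩ := Nat.exists_eq_add_of_le hge
  have hV : (0 : ℤ) < 2 ^ (3 * ν + C') := by positivity
  have hgrow := cut_grow4 c d e f g' hc D hD
  have h0 : ∀ n, n0 ≤ n → 0 ≤ qua c d e f g' (n : ℤ) / 2 ^ (3 * ν + C') := fun n hn =>
    Int.ediv_nonneg (hgrow n hn).1 hV.le
  have hm : ∀ n, n0 ≤ n → qua c d e f g' (n : ℤ) / 2 ^ (3 * ν + C') ≤
      qua c d e f g' ((n + 1 : ℕ) : ℤ) / 2 ^ (3 * ν + C') := fun n hn =>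
    Int.ediv_le_ediv hV (hgrow n hn).2.1
  have h1 := cut_cnt (fun n => qua c d e f g' (n : ℤ) / 2 ^ (3 * ν + C')) n0 h0 hm K j t P
    fun n hn h2 h3 => hP n h3 ⟨(hgrow _ (by omega)).1, (hgrow _ (by omega)).1, h2⟩
  rw [← hK] at h1
  have h2 : (cnt (2 ^ ν) P : ℝ) ≤ n0 + t * ((qua c d e f g' ((2 ^ ν + j + t : ℕ) : ℤ) /
      2 ^ (3 * ν + C') : ℤ) : ℝ) := by exact_mod_cast h1
  have h3 : ((qua c d e f g' ((2 ^ ν + j + t : ℕ) : ℤ) / 2 ^ (3 * ν + C') : ℤ) : ℝ) *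
      2 ^ (3 * ν + C') ≤ (c + D) * (1 + j + t) ^ 4 * 2 ^ (4 * ν) := by
    have h4 : (qua c d e f g' ((2 ^ ν + j + t : ℕ) : ℤ) / 2 ^ (3 * ν + C')) * 2 ^ (3 * ν + C') ≤
        qua c d e f g' ((2 ^ ν + j + t : ℕ) : ℤ) := Int.ediv_mul_le _ hV.ne'
    have h5 := (hgrow (2 ^ ν + j + t) (by omega)).2.2
    have h6 : (2 : ℤ) ^ ν + j + t ≤ (1 + j + t) * 2 ^ ν := by
      have h7 : (1 : ℤ) ≤ 2 ^ ν := one_le_pow₀ (by norm_num)
      have h8 : (0 : ℤ) ≤ j := Nat.cast_nonneg _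
      have h9 : (0 : ℤ) ≤ t := Nat.cast_nonneg _
      nlinarith
    have h7 : ((2 : ℤ) ^ ν + j + t) ^ 4 ≤ ((1 + j + t) * 2 ^ ν) ^ 4 :=
      pow_le_pow_left₀ (by positivity) h6 4
    have h8 : ((c : ℤ) + D) * ((2 : ℤ) ^ ν + j + t) ^ 4 ≤ (c + D) * (1 + j + t) ^ 4 *
        2 ^ (4 * ν) := by
      have h9 := mul_le_mul_of_nonneg_left h7 (by positivity : (0 : ℤ) ≤ (c : ℤ) + D)
      refine h9.trans (le_of_eq ?_)
      rw [mul_pow, ← pow_mul, mul_comm ν 4]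
      ring
    push_cast at h4 h5
    have h9 := (h4.trans h5).trans h8
    push_cast
    exact_mod_cast h9
  have h4 : (t : ℝ) * ((qua c d e f g' ((2 ^ ν + j + t : ℕ) : ℤ) / 2 ^ (3 * ν + C') : ℤ) : ℝ) ≤
      ε / 2 * 2 ^ ν := by
    have h5 : (0 : ℝ) < 2 ^ (3 * ν + C') := by positivity
    refine le_of_mul_le_mul_right ?_ h5
    calc (t : ℝ) * ((qua c d e f g' ((2 ^ ν + j + t : ℕ) : ℤ) / 2 ^ (3 * ν + C') : ℤ) : ℝ) *
          2 ^ (3 * ν + C') ≤ t * ((c + D) * (1 + j + t) ^ 4 * 2 ^ (4 * ν)) := by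
          rw [mul_assoc]
          exact mul_le_mul_of_nonneg_left h3 (Nat.cast_nonneg _)
      _ = A * 2 ^ (4 * ν) := by rw [hA]; ring
      _ ≤ ε / 2 * 2 ^ C' * 2 ^ (4 * ν) := by
          refine mul_le_mul_of_nonneg_right ?_ (by positivity)
          have h6 : 2 * A / ε ≤ 2 ^ C' := by linarith
          rw [div_le_iff₀ hε] at h6
          linarith
      _ = ε / 2 * 2 ^ ν * 2 ^ (3 * ν + C') := by
          rw [pow_add, show 4 * ν = ν + 3 * ν by ring, pow_add]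
          ring
  have h5 : (n0 : ℝ) ≤ ε / 2 * 2 ^ ν := by
    have h6 : 2 * (n0 : ℝ) / ε ≤ 2 ^ ν := by
      have h7 : (0 : ℝ) ≤ n0 := Nat.cast_nonneg _
      linarith
    rw [div_le_iff₀ hε] at h6
    linarith
  linarith

theorem cut : Pool.Agent.H20.T4.CutStmt := by
  intro c d e f g' j j' ε hc hε
  rcases le_total j j' with h | h
  · obtain ⟨t, rfl⟩ := Nat.exists_eq_add_of_le h
    obtain ⟨C0, hC0⟩ := cut_half4 c d e f g' j t ε hc hε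
    refine ⟨C0, fun C' hC' => ?_⟩
    obtain ⟨ν0, hν0⟩ := hC0 C' hC'
    refine ⟨ν0, fun ν hν => hν0 ν hν _ fun n hn h1 => hn ?_⟩
    push_cast at h1 ⊢
    rw [← add_assoc]
    exact h1
  · obtain ⟨t, rfl⟩ := Nat.exists_eq_add_of_le h
    obtain ⟨C0, hC0⟩ := cut_half4 c d e f g' j' t ε hc hε
    refine ⟨C0, fun C' hC' => ?_⟩
    obtain ⟨ν0, hν0⟩ := hC0 C' hC'
    refine ⟨ν0, fun ν hν => hν0 ν hν _ fun n hn h1 => hn ?_⟩
    push_cast at h1 ⊢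
    rw [← add_assoc]
    exact ⟨h1.2.1, h1.1, h1.2.2.symm⟩

end Pool.Agent.H26.T4
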